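import Pool.Agent.Lib_helper79.PropInt.Verify

/-!
Problem MP_b29de7_lc: deciding whether an interval graph has a partition into two proper interval
graphs is NP-complete.
-/

namespace Pool.Agent.Results.MP_b29de7_lc.PartitionNPComplete

open Pool.Agent.Poly Pool.Agent.PropInt

/-- Deciding whether an interval graph (given by adjacency lists) has a partition into two proper
interval graphs is in NP, and NAE-3-SAT reduces to it in polynomial time, by a reduction all of whose
values are interval graphs. -/
theorem result :
    InNP (fun L : List (List ℕ) => IsIntervalGraph (graphOf L) ∧ Partitionable (graphOf L)) ∧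
    ∃ R : List (ℕ × ℕ × ℕ) → List (List ℕ), PolyTime R ∧
      (∀ F, IsIntervalGraph (graphOf (R F))) ∧ ∀ F, NAE3 F ↔ Partitionable (graphOf (R F)) :=
  ⟨inNP, reduction⟩

end Pool.Agent.Results.MP_b29de7_lc.PartitionNPComplete
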